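import Pool.Agent.Results.MP_f940ca_an.AlmostEveryPeriodVector
import Pool.Agent.Y549.OD.FUN
import Pool.Agent.Y549.OD.ISO
import Pool.Agent.Y549.OD.STAB

/-!
# MP_f940ca_an : the set of symbols with an eigenvalue contains an open dense set

The definitions `BddHol`, `IsPeriod`, `IsEigenvalue` are those of `AlmostEveryPeriodVector`.
-/

set_option autoImplicit false

open MeasureTheory Set Filter Topology Metric

namespace Pool.Agent.Results.MP_f940ca_an.OpenDense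

open Pool.Agent.Results.MP_f940ca_an.AlmostEveryPeriodVector

/-- `h` is an interior point (for the sup norm on `Ω`) of the set of the bounded holomorphic functions
`g` on `Ω` for which `S_g` has a nonzero eigenvalue -/
def Stable (Ω : Set ℂ) (h : ℂ → ℂ) : Prop :=
  ∃ ε : ℝ, 0 < ε ∧ ∀ g : ℂ → ℂ, BddHol Ω g → (∀ z ∈ Ω, ‖g z - h z‖ ≤ ε) →
    ∃ lam : ℂ, lam ≠ 0 ∧ IsEigenvalue Ω g lam

theorem toEig {Ω : Set ℂ} {g : ℂ → ℂ} {nu : ℂ} (h : Pool.Agent.Y549.OD.FUN.Fun Ω g nu) :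
    IsEigenvalue Ω g nu := by
  obtain ⟨f, u, h1, h2, h3, h4, h5, h6⟩ := h
  exact ⟨f, u, h1, h2, ⟨h3, h4, h5⟩, h6⟩

theorem op_stab {H : Type*} [NormedAddCommGroup H] [InnerProductSpace ℂ H] [CompleteSpace H] {S : H →L[ℂ] H}
    (hS : IsCompactOperator S) {lam : ℂ} (hlam : lam ≠ 0) {f : H} (hf : f ≠ 0) (he : S f = lam • f) :
    ∃ ε : ℝ, 0 < ε ∧ ∀ K : H →L[ℂ] H, IsCompactOperator K → ‖K - S‖ ≤ ε →
      ∃ nu : ℂ, nu ≠ 0 ∧ ∃ g : H, g ≠ 0 ∧ K g = nu • g :=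
  Pool.Agent.Y549.OD.STAB.stab hlam hf he (Pool.Agent.Y549.OD.ISO.iso hS (inv_ne_zero hlam))

theorem fam {Ω : Set ℂ} {h k : ℂ → ℂ} (hh : BddHol Ω h) (hk : BddHol Ω k) {m : ℕ} {κ : Fin m → ℂ → ℂ}
    (hκ : ∀ j, BddHol Ω (κ j)) (p : (Fin m → ℂ) × ℂ) :
    BddHol Ω (fun z => k z + p.2 * h z + ∑ j, p.1 j * κ j z) := by
  obtain ⟨Kh, _, hKh⟩ := hh.bd
  obtain ⟨Kk, _, hKk⟩ := hk.bd
  choose Kj hKj0 hKj using fun j => (hκ j).bd
  refine ⟨(hk.1.add (hh.1.const_mul p.2)).add (DifferentiableOn.fun_sum fun j _ => (hκ j).1.const_mul (p.1 j)),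
    Kk + ‖p.2‖ * Kh + ∑ j, ‖p.1 j‖ * Kj j, fun z hz => ?_⟩
  refine (norm_add_le _ _).trans (add_le_add ((norm_add_le _ _).trans (add_le_add (hKk z hz) ?_)) ?_)
  · rw [norm_mul]; exact mul_le_mul_of_nonneg_left (hKh z hz) (norm_nonneg _)
  · refine (norm_sum_le _ _).trans (Finset.sum_le_sum fun j _ => ?_)
    rw [norm_mul]; exact mul_le_mul_of_nonneg_left (hKj j z hz) (norm_nonneg _)

theorem main (Ω : Set ℂ) (hΩ : IsOpen Ω) (hΩb : Bornology.IsBounded Ω) {h : ℂ → ℂ}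
    (hh : BddHol Ω h) {c : ℂ} (hc : c ≠ 0) (hper : ∀ a, IsPeriod Ω h a → ∃ r : ℝ, a = r * c)
    (hnz : ∃ a, a ≠ 0 ∧ IsPeriod Ω h a) :
    Stable Ω h ∧ ∀ k : ℂ → ℂ, BddHol Ω k → ∀ (m : ℕ) (κ : Fin m → ℂ → ℂ), (∀ j, BddHol Ω (κ j)) →
      ∀ᵐ p : (Fin m → ℂ) × ℂ, Stable Ω (fun z => k z + p.2 * h z + ∑ j, p.1 j * κ j z) := by
  obtain ⟨K, hK0, hK⟩ := hh.bd
  obtain ⟨R, hR⟩ := hΩb.subset_ball 0
  obtain ⟨b, hb⟩ := prim_of_periods hΩ hh.1 hc hper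
  obtain ⟨a, ha0, γ, γ', hγ, hγ', hγΩ, hcl, ha⟩ := hnz
  have hp1 : (∫ t in (0 : ℝ)..1, (fun z => h z / c) (γ t) * γ' t) ≠ 0 := by
    have e : ∫ t in (0 : ℝ)..1, (fun z => h z / c) (γ t) * γ' t =
        c⁻¹ * ∫ t in (0 : ℝ)..1, h (γ t) * γ' t := by
      rw [← intervalIntegral.integral_const_mul]
      congr 1
      funext t
      show h (γ t) / c * γ' t = _
      rw [div_eq_mul_inv]; ring
    rw [e, ← ha]
    exact mul_ne_zero (inv_ne_zero hc) ha0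
  have hRp : 0 < |R| + 1 := by positivity
  have hΩR : Ω ⊆ ball 0 (|R| + 1) := hR.trans (Metric.ball_subset_ball (by linarith [le_abs_self R]))
  obtain ⟨L, hL, hLc⟩ := Pool.Agent.TH340.SH.exists_sol hRp hΩR
  have hd1 : DifferentiableOn ℂ (fun z => h z / c) Ω := hh.1.div_const c
  have hK10 : 0 ≤ K / ‖c‖ := by positivity
  have hK1 : ∀ z ∈ Ω, ‖(fun z => h z / c) z‖ ≤ K / ‖c‖ := fun z hz => by
    show ‖h z / c‖ ≤ _
    rw [norm_div]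
    exact div_le_div_of_nonneg_right (hK z hz) (norm_nonneg c)
  obtain ⟨lam, hlam, f0, hf0, he⟩ := Pool.Agent.TH340.SH.SH_eig hΩ hd1 hK10 hK1 hL hRp hΩR hb hγ hγ' hγΩ hcl hp1
  have hc' : (starRingEnd ℂ) c ≠ 0 := (map_ne_zero _).mpr hc
  have he' : Pool.Agent.TH340.SH.SH L hΩ hh.1 hK0 hK f0 = ((starRingEnd ℂ) c * lam) • f0 := by
    rw [mul_smul, ← he]
    apply Lp.ext
    filter_upwards [Pool.Agent.TH340.SH.SH_coe L hΩ hh.1 hK0 hK f0,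
      Pool.Agent.TH340.SH.SH_coe L hΩ hd1 hK10 hK1 f0,
      Lp.coeFn_smul ((starRingEnd ℂ) c) (Pool.Agent.TH340.SH.SH L hΩ hd1 hK10 hK1 f0)] with z k1 k2 k3
    rw [k1, k3, Pi.smul_apply, k2, smul_eq_mul]
    by_cases hz : z ∈ Ω
    · rw [indicator_of_mem hz, indicator_of_mem hz, map_div₀]
      field_simp
    · rw [indicator_of_notMem hz, indicator_of_notMem hz]; simp
  have hlc : (starRingEnd ℂ) c * lam ≠ 0 := mul_ne_zero hc' hlam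
  refine ⟨?_, fun k hk m κ hκ => ?_⟩
  · obtain ⟨δ, hδ, H⟩ := Pool.Agent.Y549.OD.FUN.stable_fun hΩ hL hLc hh.1 hK0 hK
      (op_stab (Pool.Agent.TH340.SH.SH_compact hLc hΩ hh.1 hK0 hK) hlc hf0 he')
    refine ⟨δ, hδ, fun g hg hgh => ?_⟩
    obtain ⟨nu, hnu, hF⟩ := H g hg.1 hg.2 hgh
    exact ⟨nu, hnu, toEig hF⟩
  · obtain ⟨Kk, hKk0, hKk⟩ := hk.bd
    choose Kj hKj0 hKj using fun j => (hκ j).bd
    have hgen := Pool.Agent.Y549.OD.FUN.generic_op hΩ hLc hh.1 hK0 hK hlc hf0 he' hk.1 hKk0 hKk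
      (fun j => (hκ j).1) hKj0 hKj
    filter_upwards [hgen] with p hp
    have hbd := fam hh hk hκ p
    obtain ⟨K', hK0', hK'⟩ := hbd.bd
    obtain ⟨nu, hnu, g0, hg0, he0⟩ := hp hbd.1 K' hK0' hK'
    obtain ⟨δ, hδ, H⟩ := Pool.Agent.Y549.OD.FUN.stable_fun hΩ hL hLc hbd.1 hK0' hK'
      (op_stab (Pool.Agent.TH340.SH.SH_compact hLc hΩ hbd.1 hK0' hK') hnu hg0 he0)
    refine ⟨δ, hδ, fun g hg hgh => ?_⟩
    obtain ⟨nu, hnu, hF⟩ := H g hg.1 hg.2 hgh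
    exact ⟨nu, hnu, toEig hF⟩

/-- scaling of eigenvalues -/
theorem scale {Ω : Set ℂ} {g : ℂ → ℂ} {lam : ℂ} (h : IsEigenvalue Ω g lam) (ζ : ℂ) :
    IsEigenvalue Ω (fun z => ζ * g z) ((starRingEnd ℂ) ζ * lam) := by
  obtain ⟨f, u, h1, h2, h3, h4⟩ := h
  refine ⟨f, u, h1, h2, h3, ?_⟩
  filter_upwards [h4] with z hz
  rw [map_mul, mul_assoc, hz, mul_assoc]

theorem main2 (Ω : Set ℂ) (hΩ : IsOpen Ω) (hΩb : Bornology.IsBounded Ω) {h : ℂ → ℂ}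
    (hh : BddHol Ω h) {c : ℂ} (hc : c ≠ 0) (hper : ∀ a, IsPeriod Ω h a → ∃ r : ℝ, a = r * c)
    (hnz : ∃ a, a ≠ 0 ∧ IsPeriod Ω h a) :
    (∃ C : ℝ, 0 < C ∧ ∀ (k : ℂ → ℂ) (K : ℝ), BddHol Ω k → 0 ≤ K → (∀ z ∈ Ω, ‖k z‖ ≤ K) →
      ∀ ζ : ℂ, C * K < ‖ζ‖ → ∃ lam : ℂ, lam ≠ 0 ∧ IsEigenvalue Ω (fun z => k z + ζ * h z) lam) ∧
    (∀ k : ℂ → ℂ, BddHol Ω k → ∀ δ : ℝ, 0 < δ →
      ∃ g : ℂ → ℂ, BddHol Ω g ∧ (∀ z ∈ Ω, ‖g z - k z‖ ≤ δ) ∧ Stable Ω g) := by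
  obtain ⟨hst, hae⟩ := main Ω hΩ hΩb hh hc hper hnz
  refine ⟨?_, fun k hk δ hδ => ?_⟩
  · obtain ⟨ε, hε, H⟩ := hst
    refine ⟨1 / ε, by positivity, fun k K hk hK0 hK ζ hζ => ?_⟩
    have hζ0 : 0 < ‖ζ‖ := lt_of_le_of_lt (by positivity) hζ
    have hζn : ζ ≠ 0 := norm_pos_iff.mp hζ0
    have hg : BddHol Ω (fun z => h z + ζ⁻¹ * k z) := by
      obtain ⟨Kh, _, hKh⟩ := hh.bd
      refine ⟨hh.1.add (hk.1.const_mul ζ⁻¹), Kh + ‖ζ⁻¹‖ * K, fun z hz => ?_⟩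
      refine (norm_add_le _ _).trans (add_le_add (hKh z hz) ?_)
      rw [norm_mul]
      exact mul_le_mul_of_nonneg_left (hK z hz) (norm_nonneg _)
    obtain ⟨lam, hlam, hl⟩ := H _ hg (fun z hz => by
      have e : h z + ζ⁻¹ * k z - h z = ζ⁻¹ * k z := by ring
      rw [e, norm_mul, norm_inv]
      have h1 : K < ‖ζ‖ * ε := by
        rw [one_div, inv_mul_eq_div, div_lt_iff₀ hε] at hζ
        exact hζ
      rw [inv_mul_le_iff₀ hζ0]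
      exact (hK z hz).trans h1.le)
    refine ⟨(starRingEnd ℂ) ζ * lam, mul_ne_zero ((map_ne_zero _).mpr hζn) hlam, ?_⟩
    have := scale hl ζ
    have e : (fun z => ζ * (h z + ζ⁻¹ * k z)) = fun z => k z + ζ * h z := by
      funext z
      rw [mul_add, ← mul_assoc, mul_inv_cancel₀ hζn, one_mul, add_comm]
    rw [e] at this
    exact this
  · obtain ⟨K, hK0, hK⟩ := hh.bd
    have h0 := hae k hk 0 (fun j => j.elim0) (fun j => j.elim0)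
    have hd := Measure.dense_of_ae h0
    have hU : IsOpen {p : (Fin 0 → ℂ) × ℂ | ‖p.2‖ * (K + 1) < δ} :=
      isOpen_lt (by fun_prop) continuous_const
    obtain ⟨p, hp1, hp2⟩ := hd.inter_open_nonempty _ hU ⟨(0, 0), by simpa using hδ⟩
    refine ⟨_, fam hh hk (κ := fun j => j.elim0) (fun j => j.elim0) p, fun z hz => ?_, hp2⟩
    have e : k z + p.2 * h z + ∑ j : Fin 0, p.1 j * (fun j => j.elim0 : Fin 0 → ℂ → ℂ) j z - k z = p.2 * h z := by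
      rw [Finset.univ_eq_empty, Finset.sum_empty]; ring
    rw [e, norm_mul]
    refine (mul_le_mul_of_nonneg_left (hK z hz) (norm_nonneg _)).trans ?_
    have hp1' : ‖p.2‖ * (K + 1) < δ := hp1
    nlinarith [norm_nonneg p.2]

/-- **Main result.** Let `Ω` be a bounded open set and `h` bounded holomorphic with periods on a real line
through `0`, not all zero.  (1) `S_g` has a nonzero eigenvalue for ALL bounded holomorphic `g` in a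
neighbourhood of `h`.  (2) For all bounded holomorphic `k, κ₁, …, κ_m` and almost every `(η, ζ)` the
function `k + ζ h + ∑ η_j κ_j` is an interior point of the set of symbols with a nonzero eigenvalue.
(3) There is `C` with: `S_{k + ζ h}` has a nonzero eigenvalue for all `k` with `|k| ≤ K` and all
`|ζ| > C K`.  (4) The interior of the set of the bounded holomorphic `g` for which `S_g` has a nonzero
eigenvalue is dense (sup norm) in the set of all bounded holomorphic functions.  (5) In particular (4)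
holds if `1 / (z - w₀)` has a nonzero period for some `w₀` outside the closure of `Ω`. -/
theorem result (Ω : Set ℂ) (hΩ : IsOpen Ω) (hΩb : Bornology.IsBounded Ω) :
    (∀ (h : ℂ → ℂ) (c : ℂ), BddHol Ω h → c ≠ 0 → (∀ a, IsPeriod Ω h a → ∃ r : ℝ, a = r * c) →
      (∃ a, a ≠ 0 ∧ IsPeriod Ω h a) →
      Stable Ω h ∧
      (∀ k : ℂ → ℂ, BddHol Ω k → ∀ (m : ℕ) (κ : Fin m → ℂ → ℂ), (∀ j, BddHol Ω (κ j)) →
        ∀ᵐ p : (Fin m → ℂ) × ℂ, Stable Ω (fun z => k z + p.2 * h z + ∑ j, p.1 j * κ j z)) ∧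
      (∃ C : ℝ, 0 < C ∧ ∀ (k : ℂ → ℂ) (K : ℝ), BddHol Ω k → 0 ≤ K → (∀ z ∈ Ω, ‖k z‖ ≤ K) →
        ∀ ζ : ℂ, C * K < ‖ζ‖ → ∃ lam : ℂ, lam ≠ 0 ∧ IsEigenvalue Ω (fun z => k z + ζ * h z) lam) ∧
      (∀ k : ℂ → ℂ, BddHol Ω k → ∀ δ : ℝ, 0 < δ →
        ∃ g : ℂ → ℂ, BddHol Ω g ∧ (∀ z ∈ Ω, ‖g z - k z‖ ≤ δ) ∧ Stable Ω g)) ∧
    (∀ w₀ : ℂ, w₀ ∉ closure Ω → (∃ a, a ≠ 0 ∧ IsPeriod Ω (fun z => 1 / (z - w₀)) a) →
      ∀ k : ℂ → ℂ, BddHol Ω k → ∀ δ : ℝ, 0 < δ →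
        ∃ g : ℂ → ℂ, BddHol Ω g ∧ (∀ z ∈ Ω, ‖g z - k z‖ ≤ δ) ∧ Stable Ω g) := by
  refine ⟨fun h c hh hc hper hnz => ?_, fun w₀ hw₀ hnz => ?_⟩
  · obtain ⟨h1, h2⟩ := main Ω hΩ hΩb hh hc hper hnz
    obtain ⟨h3, h4⟩ := main2 Ω hΩ hΩb hh hc hper hnz
    exact ⟨h1, h2, h3, h4⟩
  · exact (main2 Ω hΩ hΩb (bddHol_inv hw₀) Complex.I_ne_zero (fun a ha => inv_period hw₀ ha) hnz).2

end Pool.Agent.Results.MP_f940ca_an.OpenDense
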